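import Pool.Agent.MWK.Stmts

/-!
# MWK SBA (MP_23468a_al): type B, from a disagreement to a chain
-/

namespace Pool.Agent.MWK.H99

open Pool.Agent.Helper14_MV Pool.Agent.Helper2_MV

theorem sba_core (che : CheStmt) (trc : TrcStmt) (m : ℕ) (u v : List ℕ) (x y : ℕ)
    (hA : Ag (FF m v) u v) (hDp : ∀ c, Dp m u c → Dp m v c)
    (hd : Dp (m + 1) u y) (hnd : ¬ Dp m u y) (hx : x ∈ pre u y) (hx' : x ∉ pre v y) :
    ∃ cs : List ℕ,
      cs.length = m ∧ x ∈ pre u y ∧ x ∉ pre v y ∧ x ∈ v ∧ y ∈ u ∧ y ∈ v ∧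
        Chc u [y] cs ∧ Chc v [y] cs ∧ ∀ c ∈ cs, x ∈ pre v c := by
  obtain ⟨cs, h1, h2, h3⟩ := che m u y hd hnd
  refine ⟨cs, h1, hx, hx', (hA.mem x).1 (mem_of_mem_pre hx), hd.mem, (hA.mem y).1 hd.mem, h2,
    trc m u v hA cs [y] (fun c hc => hDp c (h3 c hc)) h2, ?_⟩
  intro c hc
  have h4 : y ∈ pre u c := h2.mem_pre y (by simp) c hc
  have h5 : x ∈ pre u c := pre_trans hx h4
  have h6 : FF m v c x 0 := hDp c (h3 c hc)
  exact (hA.mem_pre h6).1 h5

theorem sba (dag : DagStmt) (che : CheStmt) (trc : TrcStmt) : SbaStmt := by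
  intro m u v hB hD
  have hF : Ag (FF m v) u v := hB.weaken (fun y x i h => Or.inl h)
  have hdp : ∀ k ≤ m + 1, ∀ x, Dp k u x ↔ Dp k v x := dag m u v hF
  have hF' : Ag (FF m u) v u :=
    hF.symm.weaken (fun y x i h => (hdp m (by omega) y).1 h)
  have key : ∃ y x, Dp (m + 1) v y ∧ ¬ Dp m v y ∧ ¬ (x ∈ pre u y ↔ x ∈ pre v y) := by
    by_contra hno
    apply hD
    refine ⟨hB.1, ?_⟩
    intro y x i hi hf
    by_cases hm : Dp m v y
    · exact hB.2 y x i hi (Or.inl hm)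
    · rcases hf with hf | ⟨hf1, hf2⟩
      · exact absurd hf hm
      · have hxy : x ∈ pre u y ↔ x ∈ pre v y := by
          by_contra hc
          exact hno ⟨y, x, hf1, hm, hc⟩
        rw [← List.count_pos_iff, ← List.count_pos_iff] at hxy
        rcases hf2 with rfl | hs
        · omega
        · rcases hs with hs | ⟨z, hz, _⟩
          · have h1 : u.count x = 1 := (hB.count_one x).2 hs
            have h2 := count_pre_le u x y
            have h3 := count_pre_le v x y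
            rcases Nat.le_one_iff_eq_zero_or_eq_one.1 hi with rfl | rfl
            · omega
            · omega
          · exact hz.elim
  obtain ⟨y, x, h1, h2, h3⟩ := key
  by_cases hx : x ∈ pre u y
  · have hx' : x ∉ pre v y := fun h => h3 ⟨fun _ => h, fun _ => hx⟩
    obtain ⟨cs, h⟩ := sba_core che trc m u v x y hF (fun c hc => (hdp m (by omega) c).1 hc)
      ((hdp (m + 1) le_rfl y).2 h1) (fun h => h2 ((hdp m (by omega) y).1 h)) hx hx'
    exact ⟨u, v, Or.inl ⟨rfl, rfl⟩, x, y, cs, h⟩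
  · have hx' : x ∈ pre v y := by
      by_contra h
      exact h3 ⟨fun h' => absurd h' hx, fun h' => absurd h' h⟩
    obtain ⟨cs, h⟩ := sba_core che trc m v u x y hF' (fun c hc => (hdp m (by omega) c).2 hc)
      h1 h2 hx' hx
    exact ⟨v, u, Or.inr ⟨rfl, rfl⟩, x, y, cs, h⟩

end Pool.Agent.MWK.H99
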